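import Pool.Agent.R331.PerRec

open Pool.Agent.R331.PerRec

namespace Pool.Agent.Results.MP_975ca8_an.PeriodicCriterion

/-- `x n` is the term `x_{n-l}` of a positive solution of
`x_{n+1} = 1 / (B_n x_n + x_{n-l})`, where `B_n = B (n mod k)`. -/
def IsSolution {k : ℕ} (l : ℕ) (B : ZMod k → ℝ) (x : ℕ → ℝ) : Prop :=
  (∀ n, 0 < x n) ∧ ∀ n : ℕ, x (n + l + 1) = 1 / (B n * x (n + l) + x n)

/-- boundedness -/
def Bounded (x : ℕ → ℝ) : Prop := ∃ M, ∀ n, x n ≤ M

/-- the cyclic system of `k` equations in `k` positive unknowns -/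
def Cyclic {k : ℕ} (l : ℕ) (B : ZMod k → ℝ) (y : ZMod k → ℝ) : Prop :=
  (∀ i, 0 < y i) ∧ ∀ i, y (i + 1) * (B i * y i + y (i - l)) = 1

/-- `k` is the least period of `B` -/
def LeastPeriod {k : ℕ} (B : ZMod k → ℝ) : Prop := ∀ j : ZMod k, j ≠ 0 → ∃ i, B (i + j) ≠ B i

/-- coefficients -/
noncomputable def coef {k : ℕ} (l : ℕ) (B : ZMod k → ℝ) : ZMod k → Fin (l + 1) → ℝ :=
  fun i j => (if j = 0 then 1 else 0) + (if j = Fin.last l then B i else 0)

theorem coef_nonneg {k l : ℕ} {B : ZMod k → ℝ} (hB : ∀ i, 0 ≤ B i) :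
    ∀ i j, 0 ≤ coef l B i j := by
  intro i j
  unfold coef
  have := hB i
  split_ifs <;> linarith

theorem coef_pos {k l : ℕ} {B : ZMod k → ℝ} (hB : ∀ i, 0 ≤ B i) : ∀ i, ∃ j, 0 < coef l B i j := by
  intro i
  refine ⟨0, ?_⟩
  unfold coef
  have := hB i
  rw [if_pos rfl]
  split_ifs <;> linarith

theorem S_coef {k l : ℕ} (B : ZMod k → ℝ) (i : ZMod k) (v : Fin (l + 1) → ℝ) :
    S (coef l B) i v = B i * v (Fin.last l) + v 0 := by
  simp only [S, coef, add_mul, Finset.sum_add_distrib, ite_mul, zero_mul, one_mul,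
    Finset.sum_ite_eq', Finset.mem_univ, if_true]
  ring

theorem sol_iff {k l : ℕ} {B : ZMod k → ℝ} (hB : ∀ i, 0 ≤ B i) (x : ℕ → ℝ) :
    IsSolution l B x ↔ Sol (coef l B) x := by
  unfold IsSolution Sol
  refine and_congr_right fun hx => forall_congr' fun n => ?_
  rw [S_coef]
  simp only [Fin.val_zero, Fin.val_last, add_zero]
  have : 0 < B n * x (n + l) + x n := by
    have := mul_nonneg (hB n) (hx (n + l)).le
    linarith [hx n]
  have e : n + (l + 1) = n + l + 1 := rfl
  rw [e]
  constructor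
  · intro h; rw [h]; field_simp
  · intro h; field_simp; linarith

theorem cyc_iff {k l : ℕ} {B : ZMod k → ℝ} :
    (∃ y, Cyclic l B y) ↔ ∃ y, Cyc (coef l B) y := by
  constructor
  · rintro ⟨y, hy, h⟩
    refine ⟨fun i => y (i - l), fun i => hy _, fun i => ?_⟩
    rw [S_coef]
    have := h i
    have e1 : i + ((l + 1 : ℕ) : ZMod k) - l = i + 1 := by push_cast; ring
    have e2 : i + (((Fin.last l : Fin (l + 1)) : ℕ) : ZMod k) - l = i := by simp
    have e3 : i + (((0 : Fin (l + 1)) : ℕ) : ZMod k) - l = i - l := by simp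
    simp only [e1, e2, e3]
    exact this
  · rintro ⟨y, hy, h⟩
    refine ⟨fun i => y (i + l), fun i => hy _, fun i => ?_⟩
    have := h i
    rw [S_coef] at this
    have e1 : i + 1 + (l : ZMod k) = i + ((l + 1 : ℕ) : ZMod k) := by push_cast; ring
    have e2 : i + (l : ZMod k) = i + (((Fin.last l : Fin (l + 1)) : ℕ) : ZMod k) := by simp
    have e3 : i - (l : ZMod k) + l = i + (((0 : Fin (l + 1)) : ℕ) : ZMod k) := by simp
    simp only [e1, e3]
    rw [e2]
    exact this

/-- the positive root of `z^2 + c u z = 1` -/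
noncomputable def phi (c u : ℝ) : ℝ := (-(c * u) + Real.sqrt ((c * u) ^ 2 + 4)) / 2

theorem phi_pos (c u : ℝ) : 0 < phi c u := by
  unfold phi
  have h : |c * u| < Real.sqrt ((c * u) ^ 2 + 4) := by
    rw [← Real.sqrt_sq_eq_abs]
    exact Real.sqrt_lt_sqrt (sq_nonneg _) (by linarith)
  have := le_abs_self (c * u)
  linarith

theorem phi_le_one {c u : ℝ} (h : 0 ≤ c * u) : phi c u ≤ 1 := by
  unfold phi
  have : Real.sqrt ((c * u) ^ 2 + 4) ≤ c * u + 2 := by
    rw [Real.sqrt_le_left (by linarith)]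
    nlinarith
  linarith

theorem phi_eq (c u : ℝ) : phi c u * (c * u + phi c u) = 1 := by
  unfold phi
  have h := Real.mul_self_sqrt (show 0 ≤ (c * u) ^ 2 + 4 by positivity)
  nlinarith

theorem phi_cont (c : ℝ) : Continuous (phi c) := by
  unfold phi
  fun_prop

/-- iteration of a `k`-periodic family of maps -/
noncomputable def iter {k : ℕ} (f : ZMod k → ℝ → ℝ) (t : ℝ) : ℕ → ℝ
  | 0 => t
  | n + 1 => f n (iter f t n)

theorem close {k : ℕ} [NeZero k] (f : ZMod k → ℝ → ℝ) (t : ℝ) (hk : iter f t k = t) (n : ℕ) :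
    iter f t ((n : ZMod k).val) = iter f t n := by
  have hper : Function.Periodic (iter f t) k := by
    intro n
    induction n with
    | zero => simpa [iter] using hk
    | succ n ih =>
      have : n + 1 + k = (n + k) + 1 := by ring
      rw [this]
      show f ((n + k : ℕ) : ZMod k) (iter f t (n + k)) = f (n : ZMod k) (iter f t n)
      rw [ih]
      simp
  rw [ZMod.val_natCast]
  exact hper.map_mod_nat n

/-- `k ∣ l + 1` -/
theorem case_succ {k l : ℕ} [NeZero k] (B : ZMod k → ℝ) (hB : ∀ i, 0 ≤ B i)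
    (hl : (l : ZMod k) = -1) : ∃ y, Cyclic l B y := by
  set f : ZMod k → ℝ → ℝ := fun i => phi (B i) with hf
  have hcont : ∀ n, Continuous fun t => iter f t n := by
    intro n
    induction n with
    | zero => exact continuous_id
    | succ n ih => exact (phi_cont _).comp ih
  have hmap : ∀ n, ∀ t ∈ Set.Icc (0 : ℝ) 1, iter f t n ∈ Set.Icc (0 : ℝ) 1 := by
    intro n t ht
    induction n with
    | zero => exact ht
    | succ n ih =>
      exact ⟨(phi_pos _ _).le, phi_le_one (mul_nonneg (hB _) ih.1)⟩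
  obtain ⟨t, ht, hfix⟩ := exists_mem_Icc_isFixedPt_of_mapsTo (f := fun t => iter f t k)
    (a := 0) (b := 1) (hcont k).continuousOn zero_le_one (fun t ht => hmap k t ht)
  have hk : iter f t k = t := hfix
  have hcl := close f t hk
  have hpos : ∀ n, 0 < iter f t n := by
    intro n
    cases n with
    | zero =>
      obtain ⟨m, hm⟩ := Nat.exists_eq_succ_of_ne_zero (NeZero.ne k)
      show 0 < t
      have : t = iter f t (m + 1) := by
        rw [← Nat.succ_eq_add_one, ← hm, hk]
      rw [this]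
      exact phi_pos _ _
    | succ n => exact phi_pos _ _
  refine ⟨fun i => iter f t i.val, fun i => hpos _, fun i => ?_⟩
  obtain ⟨n, rfl⟩ := ZMod.natCast_zmod_surjective i
  have e1 : (n : ZMod k) - (l : ZMod k) = ((n + 1 : ℕ) : ZMod k) := by
    rw [hl]; push_cast; ring
  have e2 : (n : ZMod k) + 1 = ((n + 1 : ℕ) : ZMod k) := by push_cast; ring
  show iter f t ((n : ZMod k) + 1).val * (B n * iter f t (n : ZMod k).val +
    iter f t ((n : ZMod k) - (l : ZMod k)).val) = 1
  rw [e1, e2, hcl, hcl]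
  exact phi_eq _ _

/-- alternating products -/
theorem two_step {k : ℕ} (B : ZMod k → ℝ) (u : ℕ → ℝ) (hu : ∀ n, 0 < u n)
    (h : ∀ n : ℕ, u (n + 1) * ((1 + B n) * u n) = 1) (j : ℕ) :
    u (2 * j) * ∏ i ∈ Finset.range j, (1 + B ((2 * i + 1 : ℕ) : ZMod k)) =
      u 0 * ∏ i ∈ Finset.range j, (1 + B ((2 * i : ℕ) : ZMod k)) := by
  induction j with
  | zero => simp
  | succ j ih =>
    rw [Finset.prod_range_succ, Finset.prod_range_succ]
    have h0 := h (2 * j)
    have h1 := h (2 * j + 1)
    have p1 := hu (2 * j + 1)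
    have e : 2 * (j + 1) = 2 * j + 1 + 1 := by ring
    rw [e]
    set P := ∏ i ∈ Finset.range j, (1 + B ((2 * i + 1 : ℕ) : ZMod k))
    set Q := ∏ i ∈ Finset.range j, (1 + B ((2 * i : ℕ) : ZMod k))
    have h2 : u (2 * j + 1 + 1) * (1 + B ((2 * j + 1 : ℕ) : ZMod k)) =
        u (2 * j) * (1 + B ((2 * j : ℕ) : ZMod k)) := by
      have : u (2 * j + 1) * (u (2 * j + 1 + 1) * (1 + B ((2 * j + 1 : ℕ) : ZMod k))) =
        u (2 * j + 1) * (u (2 * j) * (1 + B ((2 * j : ℕ) : ZMod k))) := by linarith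
      exact mul_left_cancel₀ p1.ne' this
    calc u (2 * j + 1 + 1) * (P * (1 + B ((2 * j + 1 : ℕ) : ZMod k)))
        = P * (u (2 * j + 1 + 1) * (1 + B ((2 * j + 1 : ℕ) : ZMod k))) := by ring
      _ = P * (u (2 * j) * (1 + B ((2 * j : ℕ) : ZMod k))) := by rw [h2]
      _ = (u (2 * j) * P) * (1 + B ((2 * j : ℕ) : ZMod k)) := by ring
      _ = u 0 * (Q * (1 + B ((2 * j : ℕ) : ZMod k))) := by rw [ih]; ring

theorem case_zero_aux {k l : ℕ} [NeZero k] (B : ZMod k → ℝ) (hB : ∀ i, 0 ≤ B i)
    (hl : (l : ZMod k) = 0) (t : ℝ) (ht : 0 < t)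
    (hk : iter (fun i u => 1 / ((1 + B i) * u)) t k = t) : ∃ y, Cyclic l B y := by
  set f : ZMod k → ℝ → ℝ := fun i u => 1 / ((1 + B i) * u) with hf
  have hB1 : ∀ i, 0 < 1 + B i := fun i => by linarith [hB i]
  have hcl := close f t hk
  have hpos : ∀ n, 0 < iter f t n := by
    intro n
    induction n with
    | zero => exact ht
    | succ n ih =>
      show 0 < 1 / ((1 + B n) * iter f t n)
      have := hB1 n
      positivity
  refine ⟨fun i => iter f t i.val, fun i => hpos _, fun i => ?_⟩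
  obtain ⟨n, rfl⟩ := ZMod.natCast_zmod_surjective i
  have e2 : (n : ZMod k) + 1 = ((n + 1 : ℕ) : ZMod k) := by push_cast; ring
  show iter f t ((n : ZMod k) + 1).val * (B n * iter f t (n : ZMod k).val +
    iter f t ((n : ZMod k) - (l : ZMod k)).val) = 1
  rw [hl, sub_zero, e2, hcl, hcl]
  show 1 / ((1 + B n) * iter f t n) * (B n * iter f t n + iter f t n) = 1
  have := hB1 n
  have := hpos n
  field_simp
  ring

/-- `k ∣ l`, `k` odd -/
theorem case_zero_odd {k l : ℕ} [NeZero k] (B : ZMod k → ℝ) (hB : ∀ i, 0 ≤ B i)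
    (hl : (l : ZMod k) = 0) (hodd : Odd k) : ∃ y, Cyclic l B y := by
  obtain ⟨m, hm⟩ := hodd
  have hB1 : ∀ i, 0 < 1 + B i := fun i => by linarith [hB i]
  set P := ∏ i ∈ Finset.range m, (1 + B ((2 * i + 1 : ℕ) : ZMod k)) with hP
  set Q := ∏ i ∈ Finset.range m, (1 + B ((2 * i : ℕ) : ZMod k)) with hQ
  have Pp : 0 < P := Finset.prod_pos fun i _ => hB1 _
  have Qp : 0 < Q := Finset.prod_pos fun i _ => hB1 _
  have Rp := hB1 ((2 * m : ℕ) : ZMod k)
  set R := 1 + B ((2 * m : ℕ) : ZMod k) with hR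
  set t := Real.sqrt (P / (R * Q)) with ht
  have tp : 0 < t := Real.sqrt_pos.2 (by positivity)
  have t2 : t * t = P / (R * Q) := Real.mul_self_sqrt (by positivity)
  refine case_zero_aux B hB hl t tp ?_
  set f : ZMod k → ℝ → ℝ := fun i u => 1 / ((1 + B i) * u) with hf
  have hpos : ∀ n, 0 < iter f t n := by
    intro n
    induction n with
    | zero => exact tp
    | succ n ih =>
      show 0 < 1 / ((1 + B n) * iter f t n)
      have := hB1 n
      positivity
  have h2 := two_step B (iter f t) hpos (fun n => by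
    show 1 / ((1 + B n) * iter f t n) * ((1 + B n) * iter f t n) = 1
    have := hB1 n
    have := hpos n
    field_simp) m
  rw [← hP, ← hQ] at h2
  have h3 : iter f t (2 * m) = t * Q / P := by
    rw [eq_div_iff Pp.ne', h2]; rfl
  have key : ∀ n, n = 2 * m + 1 → iter f t n = 1 / (R * iter f t (2 * m)) := by
    rintro n rfl
    rfl
  have : iter f t k = 1 / (R * iter f t (2 * m)) := key k hm
  rw [this, h3]
  have h4 : t * t * (R * Q) = P := by
    rw [t2]; field_simp
  rw [div_eq_iff (by positivity)]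
  field_simp
  linarith

/-- `k ∣ l`, `k` even -/
theorem case_zero_even {k l : ℕ} [NeZero k] (B : ZMod k → ℝ) (hB : ∀ i, 0 ≤ B i)
    (hl : (l : ZMod k) = 0) (heven : Even k) :
    (∃ y, Cyclic l B y) ↔ ∏ i ∈ Finset.range (k / 2), (1 + B ((2 * i : ℕ) : ZMod k)) =
      ∏ i ∈ Finset.range (k / 2), (1 + B ((2 * i + 1 : ℕ) : ZMod k)) := by
  obtain ⟨m, hm'⟩ := heven
  have hm : k = 2 * m := by omega
  have hk2 : k / 2 = m := by omega
  rw [hk2]
  have hB1 : ∀ i, 0 < 1 + B i := fun i => by linarith [hB i]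
  set P := ∏ i ∈ Finset.range m, (1 + B ((2 * i + 1 : ℕ) : ZMod k)) with hP
  set Q := ∏ i ∈ Finset.range m, (1 + B ((2 * i : ℕ) : ZMod k)) with hQ
  have Pp : 0 < P := Finset.prod_pos fun i _ => hB1 _
  have Qp : 0 < Q := Finset.prod_pos fun i _ => hB1 _
  constructor
  · rintro ⟨y, hy, h⟩
    have h2 := two_step B (fun n => y (n : ZMod k)) (fun n => hy _) (fun n => by
      have := h n
      rw [hl, sub_zero] at this
      push_cast
      linarith) m
    rw [← hP, ← hQ] at h2
    have e : ((2 * m : ℕ) : ZMod k) = 0 := by rw [← hm]; simp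
    simp only [e, Nat.cast_zero] at h2
    exact (mul_left_cancel₀ (hy 0).ne' h2).symm
  · intro hPQ
    refine case_zero_aux B hB hl 1 one_pos ?_
    set f : ZMod k → ℝ → ℝ := fun i u => 1 / ((1 + B i) * u) with hf
    have hpos : ∀ n, 0 < iter f 1 n := by
      intro n
      induction n with
      | zero => exact one_pos
      | succ n ih =>
        show 0 < 1 / ((1 + B n) * iter f 1 n)
        have := hB1 n
        positivity
    have h2 := two_step B (iter f 1) hpos (fun n => by
      show 1 / ((1 + B n) * iter f 1 n) * ((1 + B n) * iter f 1 n) = 1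
      have := hB1 n
      have := hpos n
      field_simp) m
    rw [← hP, ← hQ, hPQ] at h2
    have := mul_right_cancel₀ Pp.ne' h2
    rw [show iter f 1 k = iter f 1 (2 * m) by rw [← hm], this]
    rfl

/-- `1 - B_{i-1} + B_{i-1} B_{i-2} - ...`, with `n` terms -/
def alt {k : ℕ} (B : ZMod k → ℝ) (n : ℕ) (i : ZMod k) : ℝ :=
  ∑ j ∈ Finset.range n, (-1) ^ j * ∏ m ∈ Finset.range j, B (i - 1 - m)

theorem alt_succ {k : ℕ} (B : ZMod k → ℝ) (n : ℕ) (i : ZMod k) :
    alt B (n + 1) (i + 1) = 1 - B i * alt B n i := by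
  unfold alt
  rw [Finset.sum_range_succ', Finset.mul_sum]
  have : ∀ j ∈ Finset.range n, (-1 : ℝ) ^ (j + 1) * ∏ m ∈ Finset.range (j + 1), B (i + 1 - 1 - m) =
      - (B i * ((-1) ^ j * ∏ m ∈ Finset.range j, B (i - 1 - m))) := by
    intro j _
    rw [Finset.prod_range_succ']
    have e0 : i + 1 - 1 - ((0 : ℕ) : ZMod k) = i := by push_cast; ring
    have e1 : ∀ m ∈ Finset.range j, B (i + 1 - 1 - ((m + 1 : ℕ) : ZMod k)) = B (i - 1 - m) := by
      intro m _
      congr 1
      push_cast
      ring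
    rw [Finset.prod_congr rfl e1, e0]
    ring
  rw [Finset.sum_congr rfl this, Finset.sum_neg_distrib]
  simp
  ring

/-- unfolding the affine recursion -/
theorem unfold_q {k : ℕ} (B : ZMod k → ℝ) (q : ZMod k → ℝ) (hq : ∀ i, q (i + 1) = 1 - B i * q i)
    (n : ℕ) (i : ZMod k) :
    q i = alt B n i + (-1) ^ n * (∏ m ∈ Finset.range n, B (i - 1 - m)) * q (i - n) := by
  induction n with
  | zero => simp [alt]
  | succ n ih =>
    rw [ih]
    have h1 := hq (i - (n + 1 : ℕ))
    have e : i - ((n + 1 : ℕ) : ZMod k) + 1 = i - n := by push_cast; ring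
    rw [e] at h1
    rw [h1, Finset.prod_range_succ]
    unfold alt
    rw [Finset.sum_range_succ]
    have e2 : i - ((n + 1 : ℕ) : ZMod k) = i - 1 - n := by push_cast; ring
    rw [e2]
    ring

theorem prod_shift {k : ℕ} [NeZero k] (B : ZMod k → ℝ) (i : ZMod k) :
    ∏ m ∈ Finset.range k, B (i - 1 - m) = ∏ j, B j := by
  refine Finset.prod_bij' (fun m _ => i - 1 - (m : ZMod k)) (fun j _ => (i - 1 - j).val)
    (fun m _ => Finset.mem_univ _) (fun j _ => Finset.mem_range.2 (ZMod.val_lt _))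
    (fun m hm => ?_) (fun j _ => ?_) (fun m _ => rfl)
  · simp only [sub_sub_cancel]
    exact ZMod.val_cast_of_lt (Finset.mem_range.1 hm)
  · simp

/-- `k ∣ l + 2`, `k` odd -/
theorem case_two {k l : ℕ} [NeZero k] (B : ZMod k → ℝ) (hB : ∀ i, 0 ≤ B i)
    (hl : (l : ZMod k) = -2) (hodd : Odd k) :
    (∃ y, Cyclic l B y) ↔ ∀ i, 0 < alt B k i := by
  set P := ∏ j, B j with hP
  have P0 : 0 ≤ P := Finset.prod_nonneg fun i _ => hB i
  constructor
  · rintro ⟨y, hy, h⟩ i
    set q : ZMod k → ℝ := fun i => y i * y (i + 1) with hqdef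
    have hq : ∀ i, q (i + 1) = 1 - B i * q i := by
      intro i
      have := h i
      rw [hl] at this
      have e : i - -2 = i + 1 + 1 := by ring
      rw [e] at this
      show y (i + 1) * y (i + 1 + 1) = 1 - B i * (y i * y (i + 1))
      linarith
    have := unfold_q B q hq k i
    rw [prod_shift, hodd.neg_one_pow, ← hP] at this
    have e : i - (k : ZMod k) = i := by simp
    rw [e] at this
    have hpos : 0 < q i := mul_pos (hy _) (hy _)
    nlinarith
  · intro ha
    have h1P : 0 < 1 + P := by linarith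
    set q : ZMod k → ℝ := fun i => alt B k i / (1 + P) with hq
    have hqpos : ∀ i, 0 < q i := fun i => div_pos (ha i) h1P
    have hqrec : ∀ i, q (i + 1) = 1 - B i * q i := by
      intro i
      have h1 := alt_succ B k i
      have h2 : alt B (k + 1) (i + 1) = alt B k (i + 1) - P := by
        have : alt B (k + 1) (i + 1) = alt B k (i + 1) +
            (-1) ^ k * ∏ m ∈ Finset.range k, B (i + 1 - 1 - m) := by
          unfold alt
          rw [Finset.sum_range_succ]
        rw [this, prod_shift, hodd.neg_one_pow, ← hP]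
        ring
      rw [h2] at h1
      show alt B k (i + 1) / (1 + P) = 1 - B i * (alt B k i / (1 + P))
      field_simp
      linarith
    -- solve `y i * y (i+1) = q i`
    have hex : ∃ y : ZMod k → ℝ, (∀ i, 0 < y i) ∧ ∀ i, y i * y (i + 1) = q i := by
      obtain ⟨m, hm⟩ := hodd
      set g : ZMod k → ℝ := fun i => Real.log (q i) with hg
      set Y : ZMod k → ℝ := fun i => (∑ j ∈ Finset.range k, (-1) ^ j * g (i + j)) / 2 with hY
      have hYY : ∀ i, Y i + Y (i + 1) = g i := by
        intro i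
        have e1 : (∑ j ∈ Finset.range k, (-1 : ℝ) ^ j * g (i + 1 + j)) =
            - ∑ j ∈ Finset.range k, (-1 : ℝ) ^ (j + 1) * g (i + ((j + 1 : ℕ) : ZMod k)) := by
          rw [← Finset.sum_neg_distrib]
          refine Finset.sum_congr rfl fun j _ => ?_
          have : i + 1 + (j : ZMod k) = i + ((j + 1 : ℕ) : ZMod k) := by push_cast; ring
          rw [this]
          ring
        have e2 := Finset.sum_range_succ' (fun j => (-1 : ℝ) ^ j * g (i + (j : ZMod k))) k
        have e3 := Finset.sum_range_succ (fun j => (-1 : ℝ) ^ j * g (i + (j : ZMod k))) k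
        have hk1 : (-1 : ℝ) ^ k = -1 := by rw [hm]; simp [pow_succ, pow_mul]
        have e4 : i + (k : ZMod k) = i := by simp
        rw [e3, hk1, e4] at e2
        simp only [pow_zero, one_mul, Nat.cast_zero, add_zero] at e2
        show (∑ j ∈ Finset.range k, (-1 : ℝ) ^ j * g (i + j)) / 2 +
          (∑ j ∈ Finset.range k, (-1 : ℝ) ^ j * g (i + 1 + j)) / 2 = g i
        rw [e1]
        linarith
      refine ⟨fun i => Real.exp (Y i), fun i => Real.exp_pos _, fun i => ?_⟩
      rw [← Real.exp_add, hYY]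
      exact Real.exp_log (hqpos i)
    obtain ⟨y, hy, hyq⟩ := hex
    refine ⟨y, hy, fun i => ?_⟩
    rw [hl]
    have e : i - -2 = i + 1 + 1 := by ring
    rw [e]
    have h1 := hyq i
    have h2 := hyq (i + 1)
    have h3 := hqrec i
    rw [← h1, ← h2] at h3
    linarith

/-- Full answer: for all `k ≥ 2`, `l ≥ 1` and all `B_i ≥ 0` with least period `k`, every positive
solution of `x_{n+1} = 1 / (B_n x_n + x_{n-l})` is bounded if and only if the cyclic system
`y_{i+1} (B_i y_i + y_{i-l}) = 1` (indices mod `k`) has a positive solution; otherwise every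
positive solution is unbounded.  The condition is made explicit if `k` divides `l` or `l + 1`, if
`k` is odd and divides `l + 2`, and (hence) for `k ≤ 3`. -/
theorem result (k l : ℕ) (hk : 2 ≤ k) (_hl : 1 ≤ l) (B : ZMod k → ℝ) (hB : ∀ i, 0 ≤ B i)
    (hp : LeastPeriod B) :
    ((∀ x, IsSolution l B x → Bounded x) ↔ ∃ y, Cyclic l B y) ∧
    ((¬ ∃ y, Cyclic l B y) → ∀ x, IsSolution l B x → ¬ Bounded x) ∧
    (k ∣ l + 1 → ∃ y, Cyclic l B y) ∧
    (k ∣ l → Odd k → ∃ y, Cyclic l B y) ∧
    (k ∣ l → Even k → ((∃ y, Cyclic l B y) ↔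
      ∏ i ∈ Finset.range (k / 2), (1 + B ((2 * i : ℕ) : ZMod k)) =
      ∏ i ∈ Finset.range (k / 2), (1 + B ((2 * i + 1 : ℕ) : ZMod k)))) ∧
    (k ∣ l + 2 → Odd k → ((∃ y, Cyclic l B y) ↔ ∀ i : ZMod k,
      0 < ∑ j ∈ Finset.range k, (-1) ^ j * ∏ m ∈ Finset.range j, B (i - 1 - m))) ∧
    (k = 2 → ((∃ y, Cyclic l B y) ↔ Odd l)) ∧
    (k = 3 → ((∃ y, Cyclic l B y) ↔ (l % 3 = 1 → ∀ i, B (i + 1) * (1 - B i) < 1))) := by
  have : NeZero k := ⟨by omega⟩
  have hcr := criterion (coef_nonneg (l := l) hB) (coef_pos (l := l) hB)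
  have h1 : (∀ x, IsSolution l B x → Bounded x) ↔ ∃ y, Cyclic l B y := by
    rw [cyc_iff, ← hcr.1]
    simp only [sol_iff hB, Bounded]
  have hA : k ∣ l + 1 → ∃ y, Cyclic l B y := fun h => case_succ B hB (by
    have := (ZMod.natCast_eq_zero_iff (l + 1) k).2 h
    push_cast at this
    linear_combination this)
  have h0 : k ∣ l → (l : ZMod k) = 0 := fun h => (ZMod.natCast_eq_zero_iff l k).2 h
  have hC : k ∣ l + 2 → Odd k → ((∃ y, Cyclic l B y) ↔ ∀ i : ZMod k,
      0 < ∑ j ∈ Finset.range k, (-1) ^ j * ∏ m ∈ Finset.range j, B (i - 1 - m)) :=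
    fun h ho => case_two B hB (by
      have := (ZMod.natCast_eq_zero_iff (l + 2) k).2 h
      push_cast at this
      linear_combination this) ho
  refine ⟨h1, ?_, hA, fun h ho => case_zero_odd B hB (h0 h) ho,
    fun h he => case_zero_even B hB (h0 h) he, hC, ?_, ?_⟩
  · intro hn x hx hbx
    apply hn
    rw [← h1]
    intro z hz
    rw [sol_iff hB] at hx hz
    exact hcr.2 ⟨x, hx, hbx⟩ z hz
  · rintro rfl
    constructor
    · intro hy
      by_contra hno
      rw [Nat.not_odd_iff_even] at hno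
      have h2 : 2 ∣ l := hno.two_dvd
      have := (case_zero_even B hB (h0 h2) (by decide)).1 hy
      simp only [Nat.reduceDiv, Finset.range_one, Finset.prod_singleton, Nat.mul_zero,
        Nat.cast_zero, zero_add, Nat.cast_one] at this
      obtain ⟨i, hi⟩ := hp 1 (by decide)
      fin_cases i
      · exact hi (by
          show B 1 = B 0
          linarith)
      · exact hi (by
          show B 0 = B 1
          linarith)
    · intro ho
      exact hA (by
        obtain ⟨m, hm⟩ := ho
        omega)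
  · rintro rfl
    constructor
    · intro hy hmod i
      have := (hC (by omega) (by decide)).1 hy (i + 2)
      simp only [Finset.sum_range_succ, Finset.range_zero, Finset.sum_empty, pow_zero,
        Finset.prod_empty, mul_one, zero_add, pow_one, Finset.prod_range_succ, one_mul,
        Nat.cast_zero, sub_zero, Nat.cast_one] at this
      have e1 : i + 2 - 1 = i + 1 := by ring
      have e2 : i + 1 - 1 = i := by ring
      rw [e1, e2] at this
      nlinarith
    · intro h
      have hcases : l % 3 = 0 ∨ l % 3 = 1 ∨ l % 3 = 2 := by omega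
      rcases hcases with h3 | h3 | h3
      · exact case_zero_odd B hB (h0 (by omega)) (by decide)
      · refine (hC (by omega) (by decide)).2 fun i => ?_
        have := h h3 (i - 2)
        simp only [Finset.sum_range_succ, Finset.range_zero, Finset.sum_empty, pow_zero,
          Finset.prod_empty, mul_one, zero_add, pow_one, Finset.prod_range_succ, one_mul,
          Nat.cast_zero, sub_zero, Nat.cast_one]
        have e1 : i - 2 + 1 = i - 1 := by ring
        have e2 : i - 1 - 1 = i - 2 := by ring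
        rw [e1] at this
        rw [e2]
        nlinarith
      · exact hA (by omega)

end Pool.Agent.Results.MP_975ca8_an.PeriodicCriterion
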